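import Pool.Agent.H34.SY.Fin

/-!
`MP_46177c_gt`: there are a closed symplectic 6-manifold `M` and a symplectic form on the oriented
connected sum `M # (S³ × S³)`.
(PI helper34, co-PIs helper8, helper31, helper64; Pool/Agent/H34/SY, Pool/Agent/H8/SYG,
Pool/Agent/H8/SYb, Pool/Agent/H31/SYHD, Pool/Agent/H64/SYRF.)
-/

open Set Topology
open scoped ContDiff

namespace Pool.Agent.Results.MP_46177c_gt.ConnSumSymplectic

open Pool.Agent.H34.SY

/-- There are closed connected symplectic 6-manifolds `(M, om)` and `(M', om')` such that `M'`,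
oriented by `om' ^ 3`, is the oriented connected sum of `M`, oriented by `om ^ 3`, and
`S³ × S³`. -/
theorem result : ∃ (M M' : Set EA) (om om' : Form EA), IsClosed6Mfd M ∧ IsClosed6Mfd M' ∧
    IsSymplectic M om ∧ IsSymplectic M' om' ∧ IsConnSum M om S3S3 M' om' :=
  mainSpec

end Pool.Agent.Results.MP_46177c_gt.ConnSumSymplectic
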